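import Pool.Agent.Run7.h105.EO.I

/-! Piece FAM of project EO (MP_0f290c_co), statement by helper105, proof by helper557. -/

set_option autoImplicit false

open Cardinal Set

noncomputable section

namespace Pool.Agent.Run7.h557.EO

open Pool.Agent.Run7.h105.EO

variable {Θ M Λ : Type}

/-- the set of a task and a choice -/
def EZ (s : Set M → Θ → M) (D : Θ → M → Finset Λ) (Z : Set M) : Set Λ :=
  ⋃ ξ, (D ξ (s Z ξ) : Set Λ)

theorem mk_union_fin {ι : Type} {c : Cardinal.{0}} (hc : ℵ₀ ≤ c) (hι : #ι ≤ c)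
    (f : ι → Finset Λ) : #(⋃ i, (f i : Set Λ) : Set Λ) ≤ c := by
  refine (mk_iUnion_le_sum_mk).trans ?_
  refine (sum_le_sum _ (fun _ => ℵ₀) fun i => ?_).trans ?_
  · exact (Finset.countable_toSet (f i)).le_aleph0
  · rw [sum_const']
    exact mul_le_of_le hc hι hc

theorem bad_small {κ : Cardinal.{0}} {s : Set M → Θ → M} (hB : Base κ Θ M s)
    {D : Θ → M → Finset Λ} {e : Θ → M → Λ} (hD : IsTask D e) (E' : Set Λ) (hE : #E' ≤ #Θ) :
    #{Z : Set M | κ < #(E' ∩ EZ s D Z : Set Λ)} ≤ 2 ^ #Θ := by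
  classical
  let P : Set (Θ × M) := {p | (E' ∩ (D p.1 p.2 : Set Λ)).Nonempty}
  have hP : #P ≤ #E' := by
    have hne : ∀ p : P, ∃ x, x ∈ E' ∩ (D p.1.1 p.1.2 : Set Λ) := fun p => p.2
    choose g hg using hne
    refine mk_le_of_injective (f := fun p : P => (⟨g p, (hg p).1⟩ : E')) ?_
    intro p q hpq
    by_contra hne
    have hne' : (p.1.1, p.1.2) ≠ (q.1.1, q.1.2) := fun h => hne (Subtype.ext h)
    have h1 := (hg p).2
    have h2 := (hg q).2
    have h3 : g p = g q := congrArg Subtype.val hpq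
    rw [← h3] at h2
    exact Finset.disjoint_left.1 (hD.disj _ _ _ _ hne') h1 h2
  have hinj : #{Z : Set M | κ < #(E' ∩ EZ s D Z : Set Λ)} ≤ #(Set P) := by
    refine mk_le_of_injective
      (f := fun Z : {Z : Set M | κ < #(E' ∩ EZ s D Z : Set Λ)} =>
        ({p : P | p.1.2 = s Z.1 p.1.1} : Set P)) ?_
    intro Z Z' h
    by_contra hne
    have hne' : Z.1 ≠ Z'.1 := fun h => hne (Subtype.ext h)
    have h1 := hB.ad _ _ hne'
    have hZ2 : κ < #(E' ∩ EZ s D Z.1 : Set Λ) := Z.2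
    refine absurd hZ2 (not_lt.2 ?_)
    have hsub : (E' ∩ EZ s D Z.1 : Set Λ) ⊆
        ⋃ ξ : {ξ : Θ | s Z.1 ξ = s Z'.1 ξ}, (D ξ.1 (s Z.1 ξ.1) : Set Λ) := by
      rintro x ⟨hx, hx'⟩
      obtain ⟨ξ, hξ⟩ := mem_iUnion.1 hx'
      have hp : (ξ, s Z.1 ξ) ∈ P := ⟨x, hx, hξ⟩
      have h2 : (⟨_, hp⟩ : P) ∈ ({p : P | p.1.2 = s Z.1 p.1.1} : Set P) := rfl
      have h3 : ({p : P | p.1.2 = s Z.1 p.1.1} : Set P) = {p : P | p.1.2 = s Z'.1 p.1.1} := h
      rw [h3] at h2
      exact mem_iUnion.2 ⟨⟨ξ, h2⟩, hξ⟩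
    exact (mk_le_mk_of_subset hsub).trans (mk_union_fin hB.inf h1 _)
  calc _ ≤ #(Set P) := hinj
    _ = 2 ^ #P := mk_set
    _ ≤ 2 ^ #Θ := power_le_power_left two_ne_zero (hP.trans hE)

theorem rec_exists {Λ N : Type} [LinearOrder Λ] [WellFoundedLT Λ]
    (P : (α : Λ) → ((β : Λ) → β < α → N) → N → Prop) (h : ∀ α f, ∃ z, P α f z) :
    ∃ F : Λ → N, ∀ α, P α (fun β _ => F β) (F α) := by
  classical
  choose c hc using h
  refine ⟨WellFounded.fix (C := fun _ => N) wellFounded_lt (fun α f => c α f), fun α => ?_⟩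
  have h1 := WellFounded.fix_eq (C := fun _ => N) (wellFounded_lt (α := Λ)) (fun α f => c α f) α
  rw [h1]
  exact hc _ _

theorem t_FAM : S_FAM := by
  classical
  intro κ Θ M s hB
  have hΘ : ℵ₀ ≤ #Θ := by rw [hB.theta]; exact hB.inf.trans (Order.le_succ κ)
  have hM : ℵ₀ ≤ #M := hΘ.trans hB.lt.le
  obtain ⟨Λ, hlin, hwf, hΛ, hI⟩ : ∃ (Λ : Type) (_ : LinearOrder Λ) (_ : WellFoundedLT Λ),
      #Λ = 2 ^ #M ∧ ∀ α : Λ, #(Iio α) < 2 ^ #M := by
    refine ⟨((2 : Cardinal.{0}) ^ #M).ord.ToType, inferInstance, inferInstance,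
      mk_ord_toType _, fun α => ?_⟩
    have := mk_Iio_lt α (by simp)
    simpa using this
  have hML : #M < #Λ := by rw [hΛ]; exact cantor _
  have hΛi : ℵ₀ ≤ #Λ := hM.trans hML.le
  have : Infinite Λ := infinite_iff.2 hΛi
  have hpow : #Λ ^ (#M * #Θ) = #Λ := by
    have h1 : #M * #Θ = #M := by
      rw [mul_eq_max hM hΘ, max_eq_left hB.lt.le]
    rw [h1, hΛ, ← power_mul, mul_eq_self hM]
  have hP : #(((Θ → M → Finset Λ) × (Θ → M → Λ)) × Λ) ≤ #Λ := by
    have h1 : #(Θ → M → Finset Λ) = #Λ := by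
      rw [← power_def, ← power_def, mk_finset_of_infinite, ← power_mul, hpow]
    have h2 : #(Θ → M → Λ) = #Λ := by
      rw [← power_def, ← power_def, ← power_mul, hpow]
    rw [mk_prod, mk_prod, lift_id, lift_id, lift_id, lift_id, h1, h2, mul_eq_self hΛi,
      mul_eq_self hΛi]
  obtain ⟨f⟩ := hP
  have : Nonempty (((Θ → M → Finset Λ) × (Θ → M → Λ)) × Λ) :=
    ⟨((fun _ _ => ∅, fun _ _ => Classical.arbitrary Λ), Classical.arbitrary Λ)⟩
  let τ : Λ → (Θ → M → Finset Λ) × (Θ → M → Λ) := fun α => (Function.invFun f α).1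
  have hτ : ∀ p l, τ (f (p, l)) = p := fun p l => by
    show (Function.invFun f (f (p, l))).1 = p
    rw [Function.leftInverse_invFun f.injective (p, l)]
  let EE : Λ → Set M → Set Λ := fun α Z =>
    if IsTask (τ α).1 (τ α).2 then EZ s (τ α).1 Z else ∅
  have hEEt : ∀ α Z, IsTask (τ α).1 (τ α).2 → EE α Z = EZ s (τ α).1 Z := fun α Z h => if_pos h
  have hEEf : ∀ α Z, ¬ IsTask (τ α).1 (τ α).2 → EE α Z = ∅ := fun α Z h => if_neg h
  have hEE : ∀ α Z, #(EE α Z) ≤ #Θ := by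
    intro α Z
    by_cases h : IsTask (τ α).1 (τ α).2
    · rw [hEEt α Z h]
      exact mk_union_fin hΘ le_rfl _
    · rw [hEEf α Z h]
      simp
  have hstep : ∀ (α : Λ) (g : (β : Λ) → β < α → Set M), ∃ Z : Set M, ∀ β (hβ : β < α),
      #(EE β (g β hβ) ∩ EE α Z : Set Λ) ≤ κ := by
    intro α g
    by_cases ht : IsTask (τ α).1 (τ α).2
    · by_contra hcon
      push Not at hcon
      have h1 : #(Set M) ≤ #(Iio α) * 2 ^ #Θ := by
        have hsub : (univ : Set (Set M)) ⊆ ⋃ β : Iio α,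
            {Z : Set M | κ < #(EE β.1 (g β.1 β.2) ∩ EZ s (τ α).1 Z : Set Λ)} := by
          intro Z _
          obtain ⟨β, hβ, h⟩ := hcon Z
          refine mem_iUnion.2 ⟨⟨β, hβ⟩, ?_⟩
          rw [hEEt α Z ht] at h
          exact h
        calc #(Set M) = #(univ : Set (Set M)) := mk_univ.symm
          _ ≤ #(⋃ β : Iio α,
            {Z : Set M | κ < #(EE β.1 (g β.1 β.2) ∩ EZ s (τ α).1 Z : Set Λ)} : Set (Set M)) :=
              mk_le_mk_of_subset hsub
          _ ≤ sum fun β : Iio α =>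
            #{Z : Set M | κ < #(EE β.1 (g β.1 β.2) ∩ EZ s (τ α).1 Z : Set Λ)} :=
              mk_iUnion_le_sum_mk
          _ ≤ sum fun _ : Iio α => (2 : Cardinal.{0}) ^ #Θ :=
              sum_le_sum _ _ fun β => bad_small hB ht _ (hEE _ _)
          _ = #(Iio α) * 2 ^ #Θ := sum_const' _ _
      have h2 : #(Iio α) * 2 ^ #Θ < 2 ^ #M :=
        mul_lt_of_lt (hM.trans (cantor _).le) (hI α) ((hB.strong _ hB.lt).trans (cantor _))
      rw [mk_set] at h1
      exact absurd h1 (not_le.2 h2)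
    · refine ⟨∅, fun β hβ => ?_⟩
      rw [hEEf α ∅ ht]
      simp
  obtain ⟨F, hF⟩ := rec_exists (fun α g Z => ∀ β (hβ : β < α),
    #(EE β (g β hβ) ∩ EE α Z : Set Λ) ≤ κ) hstep
  refine ⟨Λ, fun α => EE α (F α), fun α => if IsTask (τ α).1 (τ α).2 then
    range (fun ξ => (τ α).2 ξ (s (F α) ξ)) else ∅,
    { toBase := hB, big := hML, sub := ?_, small := ?_, disj := ?_, task := ?_ }⟩
  · intro α
    by_cases h : IsTask (τ α).1 (τ α).2
    · simp only [if_pos h]
      rw [hEEt α _ h]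
      rintro _ ⟨ξ, rfl⟩
      exact mem_iUnion.2 ⟨ξ, h.mem _ _⟩
    · simp only [if_neg h]
      exact empty_subset _
  · intro α
    by_cases h : IsTask (τ α).1 (τ α).2
    · simp only [if_pos h]
      exact mk_range_le
    · simp only [if_neg h]
      simp
  · intro α β hne
    rcases lt_or_gt_of_ne hne with h | h
    · exact hF β α h
    · have := hF α β h
      rwa [inter_comm] at this
  · intro D e hDe Y hY
    obtain ⟨l, hl⟩ : ∃ l, f ((D, e), l) ∉ Y := by
      by_contra hcon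
      push Not at hcon
      have h1 : #Λ ≤ #Y := mk_le_of_injective (f := fun l => (⟨f ((D, e), l), hcon l⟩ : Y))
        (fun l l' h => by
          have h2 := f.injective (congrArg Subtype.val h)
          exact (Prod.ext_iff.1 h2).2)
      exact absurd (h1.trans_lt (hY.trans hML)) (lt_irrefl _)
    refine ⟨f ((D, e), l), hl, F (f ((D, e), l)), ?_, ?_⟩
    · intro ξ
      have h1 : IsTask (τ (f ((D, e), l))).1 (τ (f ((D, e), l))).2 := by rw [hτ]; exact hDe
      show _ ⊆ EE _ _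
      rw [hEEt _ _ h1, hτ]
      exact subset_iUnion (fun ξ => (D ξ (s (F (f ((D, e), l))) ξ) : Set Λ)) ξ
    · have h1 : IsTask (τ (f ((D, e), l))).1 (τ (f ((D, e), l))).2 := by rw [hτ]; exact hDe
      simp only [if_pos h1]
      rw [hτ]

end Pool.Agent.Run7.h557.EO
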